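import Pool.Agent.Helper89.Haar.Expand

/-!
# Factorization property of the Haar array in `ℓ^∞(L^{p_k})`

For EVERY sequence of exponents `1 ≤ p_k < ∞` the Haar array has the factorization property in
`Z = ℓ^∞(L^{p_k} : k ∈ ℕ)`: if `T : Z → Z` is bounded and has large diagonal, then the identity of `Z`
factors through `T`.  In particular this holds if `p_k → 1` or `p_k → ∞`, which is the question.

Only the entries of the diagonal at the Haar functions `h_I`, `I` a dyadic interval, are used; the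
entry at the constant function is not.

The theorem `haar_expansion` below is not used in the proof; it justifies the name of `haarCoeff`.
-/

set_option autoImplicit false

open MeasureTheory Filter Topology
open scoped ENNReal

noncomputable section

namespace Pool.Agent.Results.MP_e03f8f_an.HaarArrayFactorization

/-- Lebesgue measure on `[0,1)`. -/
def leb : Measure ℝ := volume.restrict (Set.Ico 0 1)

/-- The Haar function `h_I` of the dyadic interval `I = [i/2^n, (i+1)/2^n)`: it is `1` on the left half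
of `I`, `-1` on the right half of `I`, and `0` elsewhere. -/
def haar (n i : ℕ) (t : ℝ) : ℝ :=
  if t ∈ Set.Ico ((i : ℝ) / 2 ^ n) (((i : ℝ) + 1 / 2) / 2 ^ n) then 1
  else if t ∈ Set.Ico (((i : ℝ) + 1 / 2) / 2 ^ n) (((i : ℝ) + 1) / 2 ^ n) then -1
  else 0

theorem haar_eq (n i : ℕ) : haar n i = Helper89.Haar.hh (n, i) := by
  funext t
  have h2 : (0 : ℝ) < 2 ^ n := by positivity
  have h3 : (2 : ℝ) ^ (n + 1) = 2 * 2 ^ n := by rw [pow_succ]; ring
  rw [haar, Helper89.Haar.hh, Helper89.Haar.rad]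
  dsimp only
  by_cases ht : t ∈ Helper89.Haar.I n i
  · have ht0 : 0 ≤ t := Helper89.Haar.I_nonneg ht
    have hq : Helper89.Haar.qq (n + 1) t / 2 = i := by
      rw [← Helper89.Haar.qq_succ]
      exact (Helper89.Haar.mem_I_iff ht0).1 ht
    rw [Set.indicator_of_mem ht, mul_one]
    rw [Helper89.Haar.I, Set.mem_Ico, div_le_iff₀ h2, lt_div_iff₀ h2] at ht
    by_cases hleft : t * 2 ^ n < (i : ℝ) + 1 / 2
    · rw [if_pos (show t ∈ Set.Ico _ _ by
        rw [Set.mem_Ico, div_le_iff₀ h2, lt_div_iff₀ h2]; exact ⟨ht.1, hleft⟩)]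
      have hfl : Helper89.Haar.qq (n + 1) t = 2 * i := by
        rw [Helper89.Haar.qq, Nat.floor_eq_iff (by positivity), h3]
        push_cast
        constructor <;> nlinarith
      rw [if_pos (by omega)]
    · push Not at hleft
      rw [if_neg (show ¬ t ∈ Set.Ico _ _ by
        rw [Set.mem_Ico, div_le_iff₀ h2, lt_div_iff₀ h2]
        intro h; linarith [h.2]), if_pos (show t ∈ Set.Ico _ _ by
        rw [Set.mem_Ico, div_le_iff₀ h2, lt_div_iff₀ h2]; exact ⟨hleft, ht.2⟩)]
      have hfl : Helper89.Haar.qq (n + 1) t = 2 * i + 1 := by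
        rw [Helper89.Haar.qq, Nat.floor_eq_iff (by positivity), h3]
        push_cast
        constructor <;> nlinarith
      rw [if_neg (by omega)]
  · rw [Set.indicator_of_notMem ht, mul_zero]
    rw [Helper89.Haar.I, Set.mem_Ico, div_le_iff₀ h2, lt_div_iff₀ h2] at ht
    rw [if_neg, if_neg]
    · rw [Set.mem_Ico, div_le_iff₀ h2, lt_div_iff₀ h2]
      intro h
      exact ht ⟨by linarith [h.1], h.2⟩
    · rw [Set.mem_Ico, div_le_iff₀ h2, lt_div_iff₀ h2]
      intro h
      exact ht ⟨h.1, by linarith [h.2]⟩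

theorem memLp_haar (n i : ℕ) (q : ℝ≥0∞) : MemLp (haar n i) q leb := by
  rw [haar_eq]
  exact (Helper89.Haar.bd_hh (n, i)).memLp q

theorem memLp_one (q : ℝ≥0∞) : MemLp (fun _ : ℝ => (1 : ℝ)) q leb := (Helper89.Haar.Bd.const 1).memLp q

/-- The index set of the Haar system: `Sum.inl ()` stands for the constant function, and `Sum.inr ⟨n, i⟩`
with `i < 2^n` for the dyadic interval `[i/2^n, (i+1)/2^n)`. -/
abbrev Idx : Type := Unit ⊕ (Σ n : ℕ, Fin (2 ^ n))

/-- The functions of the Haar system on `[0,1)`: the constant function `1` and the functions `h_I`. -/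
def haarFun : Idx → ℝ → ℝ := Sum.elim (fun _ _ => 1) (fun I => haar I.1 I.2)

/-- The length of the support of a function of the Haar system (which is also the integral of its square):
`1` for the constant function, `|I| = 2^{-n}` for `h_I`, `I = [i/2^n, (i+1)/2^n)`. -/
def haarLen : Idx → ℝ := Sum.elim (fun _ => 1) (fun I => ((2 : ℝ) ^ I.1)⁻¹)

theorem memLp_haarFun (q : ℝ≥0∞) (I : Idx) : MemLp (haarFun I) q leb := by
  rcases I with I | I
  · exact memLp_one q
  · exact memLp_haar I.1 I.2 q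

/-- A function of the Haar system, as an element of `L^q[0,1)`. -/
def haarLp (q : ℝ≥0∞) (I : Idx) : Lp ℝ q leb := (memLp_haarFun q I).toLp (haarFun I)

/-- The coefficient of the `I`-th function `h` of the Haar system in the Haar expansion of `f`: the integral
of `f h` divided by the integral of `h^2`. -/
def haarCoeff (I : Idx) (f : ℝ → ℝ) : ℝ := (haarLen I)⁻¹ * ∫ t, f t * haarFun I t ∂leb

/-- The `k`-th coordinate of a bounded sequence. -/
def coord {E : ℕ → Type} [∀ k, NormedAddCommGroup (E k)] (z : lp E ∞) (k : ℕ) : E k := z k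

/-- The Haar array in `Z = ℓ^∞(L^{p_k}[0,1) : k ∈ ℕ)`: the vector `h_{k,I}` has the function `h_I` (or the
constant function) in coordinate `k` and zero in all other coordinates. -/
def haarVec (p : ℕ → ℝ≥0∞) [∀ k, Fact (1 ≤ p k)] (x : ℕ × Idx) : lp (fun k => Lp ℝ (p k) leb) ∞ :=
  lp.single ∞ x.1 (haarLp (p x.1) x.2)

/-- The functional `h*_{k,I}` on `Z`: the coefficient of `h_I` in the Haar expansion of the coordinate `z_k`. -/
def haarFnl (p : ℕ → ℝ≥0∞) [∀ k, Fact (1 ≤ p k)] (x : ℕ × Idx) (z : lp (fun k => Lp ℝ (p k) leb) ∞) : ℝ :=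
  haarCoeff x.2 (coord z x.1)

/-- The array `(e_i)` of vectors of the Banach space `E`, with the functionals `(f_i)`, has the factorization
property in `E`: for every bounded linear `T : E → E` with large diagonal, that is with
`inf_i |f_i(T e_i)| > 0`, there are bounded linear `A, B : E → E` with `A T B = I_E`. -/
def FactorizationProperty {E : Type} [NormedAddCommGroup E] [NormedSpace ℝ E] {ι : Type} (e : ι → E)
    (f : ι → E → ℝ) : Prop :=
  ∀ T : E →L[ℝ] E, (∃ δ : ℝ, 0 < δ ∧ ∀ i, δ ≤ |f i (T (e i))|) →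
    ∃ A B : E →L[ℝ] E, ∀ z : E, A (T (B z)) = z

/-- The Haar expansion: the partial sums (constant function, then all Haar functions of the levels
below `N`) with the coefficients `haarCoeff` converge to `f` in `L^q`. -/
theorem haar_expansion {q : ℝ≥0∞} [Fact (1 ≤ q)] (hq : q ≠ ∞) (f : Lp ℝ q leb) :
    Tendsto (fun N => haarCoeff (Sum.inl ()) f • haarLp q (Sum.inl ()) +
      ∑ n ∈ Finset.range N, ∑ i : Fin (2 ^ n), haarCoeff (Sum.inr ⟨n, i⟩) f • haarLp q (Sum.inr ⟨n, i⟩))
      atTop (𝓝 f) := by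
  have h := Helper89.Haar.expansion hq f
  refine h.congr fun N => ?_
  have e1 : Helper89.Haar.cl q (fun _ => 1) = haarLp q (Sum.inl ()) := Helper89.Haar.cl_of (memLp_one q)
  have e2 : ∀ n (i : Fin (2 ^ n)), Helper89.Haar.cl q (Helper89.Haar.hh (n, (i : ℕ))) = haarLp q (Sum.inr ⟨n, i⟩) := by
    intro n i
    rw [Helper89.Haar.cl_of ((Helper89.Haar.bd_hh (n, (i : ℕ))).memLp _)]
    unfold haarLp
    congr 1
    exact (haar_eq n i).symm
  have e3 : haarCoeff (Sum.inl ()) f = ∫ t, f t ∂leb := by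
    simp [haarCoeff, haarLen, haarFun]
  have e4 : ∀ n (i : Fin (2 ^ n)), haarCoeff (Sum.inr ⟨n, i⟩) f = 2 ^ n * ∫ t, f t * Helper89.Haar.hh (n, (i : ℕ)) t ∂leb := by
    intro n i
    simp [haarCoeff, haarLen, haarFun, haar_eq]
  rw [e3]
  simp only [e4, ← e2, ← e1]
  congr 1
  refine Finset.sum_congr rfl fun n _ => ?_
  exact Finset.sum_range _

/-- **The Haar array has the factorization property in `ℓ^∞(L^{p_k})` for every sequence
`1 ≤ p_k < ∞`.** -/
theorem result (p : ℕ → ℝ≥0∞) [∀ k, Fact (1 ≤ p k)] (hp : ∀ k, p k ≠ ∞) :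
    FactorizationProperty (haarVec p) (haarFnl p) := by
  rintro T ⟨δ, hδ, hT⟩
  refine Helper89.Haar.main hp T hδ fun k K hK => ?_
  have h1 := hT (k, Sum.inr ⟨K.1, ⟨K.2, hK⟩⟩)
  have h2 : (0 : ℝ) < 2 ^ K.1 := by positivity
  have e1 : Helper89.Haar.cl (p k) (Helper89.Haar.hh K) = haarLp (p k) (Sum.inr ⟨K.1, ⟨K.2, hK⟩⟩) := by
    rw [Helper89.Haar.cl_of ((Helper89.Haar.bd_hh K).memLp _)]
    unfold haarLp
    congr 1
    exact (haar_eq K.1 K.2).symm
  have e2 : 2 ^ K.1 * Helper89.Haar.xx (Helper89.Haar.Tkk T k) K K =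
      haarFnl p (k, Sum.inr ⟨K.1, ⟨K.2, hK⟩⟩) (T (haarVec p (k, Sum.inr ⟨K.1, ⟨K.2, hK⟩⟩))) := by
    rw [Helper89.Haar.xx, Helper89.Haar.igc_apply (Helper89.Haar.bd_hh K), haarFnl, haarCoeff, e1]
    have e3 : (haarLen (Sum.inr ⟨K.1, ⟨K.2, hK⟩⟩))⁻¹ = 2 ^ K.1 := by simp [haarLen]
    rw [e3]
    congr 1
    refine integral_congr_ae (Eventually.of_forall fun t => ?_)
    have e4 : haarFun (Sum.inr ⟨K.1, ⟨K.2, hK⟩⟩) t = Helper89.Haar.hh K t := congrFun (haar_eq K.1 K.2) t
    show _ = _ * haarFun (Sum.inr ⟨K.1, ⟨K.2, hK⟩⟩) t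
    rw [e4]
    exact mul_comm _ _
  rw [← e2, abs_mul, abs_of_pos h2] at h1
  rw [Helper89.Haar.sz, ← div_eq_mul_inv, div_le_iff₀ h2, mul_comm]
  exact h1

end Pool.Agent.Results.MP_e03f8f_an.HaarArrayFactorization
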